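import Mathlib
import Pool.Agent.Y495.KP.Rep

/-!
# Equivariant contractibility of `U(H)` and `GL(H)` for all representations of compact groups

Let `Γ` be a group with a unitary representation `π` on a separable Hilbert space `E` and let `Γ`
act on `H = ℓ²(ℕ, E) = E ⊗ ℓ²` by `π ⊗ 1`. If no nonzero vector of `E` is orthogonal to all finite
dimensional invariant subspaces (for instance if `Γ` is a compact group and `π` is strongly
continuous), then `U(H)`, `GL(H)` and all the sets `{a ∈ GL(H) | ‖a‖ ≤ c, ‖a⁻¹‖ ≤ c}`, `c ≥ 1`,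
with the norm topology and the conjugation action, are equivariantly contractible, and the
contraction can be chosen to fix the base point.
-/

set_option autoImplicit false

namespace Pool.Agent.Results.MP_3c1a79_gt.AllRepresentations

open MeasureTheory Set
open scoped ENNReal

noncomputable section

/-- The complex Hilbert space `L²(G)`. -/
def L2 {G : Type} [MeasurableSpace G] (μ : Measure G) : Type := Lp ℂ 2 μ

section

variable {G : Type} [MeasurableSpace G] (μ : Measure G)

instance : NormedAddCommGroup (L2 μ) := (inferInstance : NormedAddCommGroup (Lp ℂ 2 μ))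

instance : InnerProductSpace ℂ (L2 μ) := (inferInstance : InnerProductSpace ℂ (Lp ℂ 2 μ))

instance : CompleteSpace (L2 μ) := (inferInstance : CompleteSpace (Lp ℂ 2 μ))

variable {μ}

/-- An element of `L²(G)` as an element of Mathlib's space `Lp ℂ 2 μ`. -/
def L2.toLp (f : L2 μ) : Lp ℂ 2 μ := f

/-- An element of `L²(G)` as a function on `G` (defined up to a null set). -/
def L2.fn (f : L2 μ) : G → ℂ := f.toLp

end

/-- The Hilbert space tensor product `E ⊗ ℓ²(ℕ)`, realised as the Hilbert space `ℓ²(ℕ, E)` of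
square summable sequences in `E`. -/
def Amp (E : Type) [NormedAddCommGroup E] : Type := lp (fun _ : ℕ => E) 2

section

variable {E : Type} [NormedAddCommGroup E]

instance : NormedAddCommGroup (Amp E) :=
  (inferInstance : NormedAddCommGroup (lp (fun _ : ℕ => E) 2))

instance [InnerProductSpace ℂ E] : InnerProductSpace ℂ (Amp E) :=
  (inferInstance : InnerProductSpace ℂ (lp (fun _ : ℕ => E) 2))

instance [InnerProductSpace ℂ E] [CompleteSpace E] : CompleteSpace (Amp E) :=
  (inferInstance : CompleteSpace (lp (fun _ : ℕ => E) 2))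

/-- An element of `ℓ²(ℕ, E)` as an element of Mathlib's space `lp`. -/
def Amp.toLp (x : Amp E) : lp (fun _ : ℕ => E) 2 := x

/-- The `n`-th coordinate of an element of `ℓ²(ℕ, E)`. -/
def Amp.coord (x : Amp E) (n : ℕ) : E := x.toLp n

end

/-- The bounded operators on the Hilbert space `H`, with the operator norm, composition and the
adjoint `star`. -/
def Op (H : Type) [NormedAddCommGroup H] [InnerProductSpace ℂ H] : Type := H →L[ℂ] H

section

variable {H : Type} [NormedAddCommGroup H] [InnerProductSpace ℂ H]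

instance : NormedRing (Op H) := (inferInstance : NormedRing (H →L[ℂ] H))

instance [CompleteSpace H] : Star (Op H) := (inferInstance : Star (H →L[ℂ] H))

/-- An element of `Op H` as an element of Mathlib's space `H →L[ℂ] H`. -/
def Op.toCLM (T : Op H) : H →L[ℂ] H := T

/-- The value of an operator at a vector. -/
def Op.ap (T : Op H) (x : H) : H := T.toCLM x

/-- The operator `T` is unitary: `T T^* = T^* T = 1`. -/
def IsUni [CompleteSpace H] (T : Op H) : Prop := T * star T = 1 ∧ star T * T = 1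

end

/-- A unitary representation of the group `Γ` on the Hilbert space `E`, as a homomorphism into the
group of the surjective linear isometries of `E`. -/
def Rep (Γ E : Type) [Group Γ] [NormedAddCommGroup E] [InnerProductSpace ℂ E] : Type :=
  Γ →* (E ≃ₗᵢ[ℂ] E)

section

variable {Γ E : Type} [Group Γ] [NormedAddCommGroup E] [InnerProductSpace ℂ E]

/-- A representation as a homomorphism. -/
def Rep.toHom (π : Rep Γ E) : Γ →* (E ≃ₗᵢ[ℂ] E) := π

/-- The operator `π_g` as a surjective linear isometry. -/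
def Rep.iso (π : Rep Γ E) (g : Γ) : E ≃ₗᵢ[ℂ] E := π.toHom g

/-- The vector `π_g x`. -/
def Rep.ap (π : Rep Γ E) (g : Γ) (x : E) : E := π.iso g x

/-- The subspace `V` is finite dimensional and invariant. -/
def FinInv (π : Rep Γ E) (V : Submodule ℂ E) : Prop :=
  FiniteDimensional ℂ V ∧ ∀ g, ∀ x ∈ V, π.ap g x ∈ V

/-- No nonzero vector of `E` is orthogonal to all finite dimensional invariant subspaces. -/
def ManyFiniteDim (π : Rep Γ E) : Prop :=
  ∀ v : E, v ≠ 0 → ∃ V : Submodule ℂ E, FinInv π V ∧ ∃ x ∈ V, inner ℂ x v ≠ 0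

/-- `P = π ⊗ 1`: on `E ⊗ ℓ² = ℓ²(ℕ, E)` this means `(P_g x)_n = π_g x_n`. -/
def IsAmp (π : Rep Γ E) (P : Γ → Op (Amp E)) : Prop :=
  ∀ g x n, ((P g).ap x).coord n = π.ap g (x.coord n)

end

/-- `P = λ ⊗ 1`, where `(λ_g f) (y) = f (g⁻¹ y)` is the left regular representation on `L²(G)`; on
`L²(G) ⊗ ℓ² = ℓ²(ℕ, L²(G))` this means `(P_g x)_n (y) = x_n (g⁻¹ y)`. -/
def IsRegular {G : Type} [Group G] [MeasurableSpace G] {μ : Measure G}
    (P : G → Op (Amp (L2 μ))) : Prop :=
  ∀ g x n, ∀ᵐ y ∂μ, (((P g).ap x).coord n).fn y = (x.coord n).fn (g⁻¹ * y)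

/-- The set of the invertible elements `a` of the algebra `A` with `‖a‖ ≤ c` and `‖a⁻¹‖ ≤ c`,
where `c` is an extended real number. For `c = ∞` it is the set of all invertible elements. -/
def Inv (A : Type) [NormedRing A] (c : ℝ≥0∞) : Set A :=
  {a | ∃ b, a * b = 1 ∧ b * a = 1 ∧ ‖a‖ₑ ≤ c ∧ ‖b‖ₑ ≤ c}

/-- Let the elements `g` of `Γ` act on `A` by the maps `ρ g`. The subset `S` of `A` with the
subspace topology is preserved by `Γ`, and there are a point `y₀` of `S` fixed by `Γ` and a
continuous map `h : [0, 1] × S → S` with `h (0, y) = y`, `h (1, y) = y₀`, `h (t, y₀) = y₀` and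
`h (t, g • y) = g • h (t, y)`. No continuity of the action in `g` is assumed. (For `t` outside
`[0, 1]` and `y` outside `S` the function `h t y` has arbitrary values, which play no role.) -/
def EqContr {Γ A : Type} [TopologicalSpace A] (ρ : Γ → A → A) (S : Set A) : Prop :=
  (∀ g, MapsTo (ρ g) S S) ∧ ∃ y₀ ∈ S, (∀ g, ρ g y₀ = y₀) ∧ ∃ h : ℝ → A → A,
    ContinuousOn (fun p : ℝ × A => h p.1 p.2) (Icc 0 1 ×ˢ S) ∧
    (∀ t ∈ Icc (0 : ℝ) 1, MapsTo (h t) S S) ∧ (∀ y ∈ S, h 0 y = y) ∧ (∀ y ∈ S, h 1 y = y₀) ∧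
    (∀ t ∈ Icc (0 : ℝ) 1, h t y₀ = y₀) ∧
    ∀ t ∈ Icc (0 : ℝ) 1, ∀ y ∈ S, ∀ g, h t (ρ g y) = ρ g (h t y)

/-- The operators `P g`, `g ∈ Γ`, on the Hilbert space `H` are unitary, and for all extended real
numbers `c ≥ 1` the set of the invertible operators `T` on `H` with `‖T‖ ≤ c` and `‖T⁻¹‖ ≤ c`, with
the norm topology, is equivariantly contractible for the conjugation action
`g • T = P_g T P_g^*`. -/
def Contracts {Γ H : Type} [NormedAddCommGroup H] [InnerProductSpace ℂ H] [CompleteSpace H]
    (P : Γ → Op H) : Prop :=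
  (∀ g, IsUni (P g)) ∧ ∀ c : ℝ≥0∞, 1 ≤ c →
    EqContr (fun g T => P g * T * star (P g)) (Inv (Op H) c)

/-- `Inv (Op H) 1` is the unitary group `U(H)` and `Inv (Op H) ∞` is the group `GL(H)`. -/
def InvMeaning (H : Type) [NormedAddCommGroup H] [InnerProductSpace ℂ H] [CompleteSpace H] :
    Prop :=
  Inv (Op H) 1 = {u | IsUni u} ∧ Inv (Op H) ⊤ = {u | IsUnit u}

theorem contracts_of {Γ : Type} [Group Γ] {E : Type} [NormedAddCommGroup E]
    [InnerProductSpace ℂ E] [CompleteSpace E] [SecondCountableTopology E] (π : Rep Γ E)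
    (h : ManyFiniteDim π) : ∃ P, IsAmp π P ∧ Contracts P := by
  obtain ⟨P, h1, h2, h3⟩ := Pool.Agent.Y495.KP.rep_main π.toHom (fun v hv => by
    obtain ⟨V, ⟨h4, h5⟩, h6⟩ := h v hv
    exact ⟨V, h4, h5, h6⟩)
  exact ⟨P, h1, fun g => ⟨Unitary.mul_star_self_of_mem (h2 g),
    Unitary.star_mul_self_of_mem (h2 g)⟩, h3⟩

/-- **Main theorem.** -/
theorem result :
    (∀ (H : Type) [NormedAddCommGroup H] [InnerProductSpace ℂ H] [CompleteSpace H],
      InvMeaning H) ∧
    -- all groups, representations with sufficiently many finite dimensional invariant subspaces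
    (∀ (Γ : Type) [Group Γ] (E : Type) [NormedAddCommGroup E] [InnerProductSpace ℂ E]
      [CompleteSpace E] [SecondCountableTopology E] (π : Rep Γ E),
      ManyFiniteDim π → ∃ P, IsAmp π P ∧ Contracts P) ∧
    -- compact groups, all strongly continuous representations on separable Hilbert spaces
    (∀ (G : Type) [TopologicalSpace G] [Group G] [IsTopologicalGroup G] [CompactSpace G]
      (E : Type) [NormedAddCommGroup E] [InnerProductSpace ℂ E]
      [CompleteSpace E] [SecondCountableTopology E] (π : Rep G E),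
      (∀ v, Continuous fun g => π.ap g v) → ∃ P, IsAmp π P ∧ Contracts P) ∧
    -- the question: `L²(G) ⊗ ℓ²` with the regular representation on the first factor
    (∀ (G : Type) [TopologicalSpace G] [Group G] [IsTopologicalGroup G] [CompactSpace G]
      [SecondCountableTopology G] [MeasurableSpace G] [BorelSpace G] (μ : Measure G)
      [μ.IsHaarMeasure] [IsProbabilityMeasure μ],
      ∃ P : G → Op (Amp (L2 μ)), IsRegular P ∧ Contracts P) := by
  refine ⟨fun H _ _ _ => ⟨?_, Pool.Agent.Y495.KP.Bd_top H⟩, fun Γ _ E _ _ _ _ π => contracts_of π,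
    ?_, ?_⟩
  · refine (Pool.Agent.Y495.KP.Bd_one H).trans ?_
    ext u
    constructor
    · intro hu
      have hu' : u ∈ unitary (H →L[ℂ] H) := hu
      exact ⟨Unitary.mul_star_self_of_mem hu', Unitary.star_mul_self_of_mem hu'⟩
    · rintro ⟨h1, h2⟩
      exact Unitary.mem_iff.2 ⟨h2, h1⟩
  · intro G _ _ _ _ E _ _ _ _ π hπ
    refine contracts_of π fun v hv => ?_
    obtain ⟨V, h1, h2, h3⟩ := Pool.Agent.Y495.KP.exists_fd' π.toHom hπ v hv
    exact ⟨V, ⟨h1, h2⟩, h3⟩
  · intro G _ _ _ _ _ _ _ μ _ _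
    have : Fact ((2 : ℝ≥0∞) ≠ ∞) := ⟨by norm_num⟩
    obtain ⟨P, h1, h2⟩ : ∃ P : G → Op (Amp (L2 μ)),
        (∀ g x n, ((P g).ap x).coord n = Helper110.Kuiper.lregE μ g (x.coord n).toLp) ∧
          Contracts P := by
      obtain ⟨P, h1, h2, h3⟩ := Pool.Agent.Y495.KP.rep_main (Helper110.Kuiper.lregE μ)
        fun v hv => Pool.Agent.Y495.KP.exists_fd' (Helper110.Kuiper.lregE μ)
          (Helper110.Kuiper.lregE_continuous μ) v hv
      exact ⟨P, h1, fun g => ⟨Unitary.mul_star_self_of_mem (h2 g),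
        Unitary.star_mul_self_of_mem (h2 g)⟩, h3⟩
    refine ⟨P, fun g x n => ?_, h2⟩
    rw [h1 g x n]
    exact Lp.coeFn_compMeasurePreserving (x.coord n).toLp (measurePreserving_mul_left μ g⁻¹)

end

end Pool.Agent.Results.MP_3c1a79_gt.AllRepresentations
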